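import Pool.Agent.Helper58.AM.Sheet

/-! # Sheet AM, row SCH (Scherk's theorem) -/

set_option autoImplicit false

open Finset

namespace Pool.Agent.Helper58.AM

theorem st_SCH : ST_SCH := by
  intro M _ _ P Q hP0 hQ0 h
  induction hn : Q.card using Nat.strong_induction_on generalizing P Q with
  | _ n ih =>
    by_cases hQ : ∃ q ∈ Q, q ≠ 0
    · obtain ⟨q0, hq0, hne⟩ := hQ
      obtain ⟨p1, hp1, hp1n⟩ : ∃ p ∈ P, p + q0 ∉ P := by
        by_contra hcon
        push Not at hcon
        have himg : P.image (fun p => p + q0) = P := by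
          apply Finset.eq_of_subset_of_card_le
          · intro x hx
            obtain ⟨p, hp, rfl⟩ := Finset.mem_image.1 hx
            exact hcon p hp
          · rw [Finset.card_image_of_injective _ (add_left_injective q0)]
        have h0 : (0 : M) ∈ P.image (fun p => p + q0) := by
          rw [himg]
          exact hP0
        obtain ⟨p, hp, hpe⟩ := Finset.mem_image.1 h0
        exact hne (h p hp q0 hq0 hpe)
      obtain ⟨Q1, hQ1⟩ : ∃ Q1 : Finset M, Q1 = Q.filter (fun q => p1 + q ∉ P) := ⟨_, rfl⟩
      have hmem : ∀ q, q ∈ Q1 ↔ q ∈ Q ∧ p1 + q ∉ P := by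
        intro q
        rw [hQ1, Finset.mem_filter]
      have hd : Disjoint P (Q1.image (fun q => p1 + q)) := by
        rw [Finset.disjoint_right]
        intro x hx
        obtain ⟨q, hq, rfl⟩ := Finset.mem_image.1 hx
        exact ((hmem q).1 hq).2
      have hc1 : (P ∪ Q1.image (fun q => p1 + q)).card = P.card + Q1.card := by
        rw [Finset.card_union_of_disjoint hd,
          Finset.card_image_of_injective _ (add_right_injective p1)]
      have hsub : Q1 ⊆ Q := fun q hq => ((hmem q).1 hq).1
      have hc2 : (Q \ Q1).card + Q1.card = Q.card := Finset.card_sdiff_add_card_eq_card hsub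
      have hq1 : q0 ∈ Q1 := (hmem q0).2 ⟨hq0, hp1n⟩
      have hpos : 0 < Q1.card := Finset.card_pos.2 ⟨q0, hq1⟩
      have hdiff : ∀ q, q ∈ Q \ Q1 → q ∈ Q ∧ p1 + q ∈ P := by
        intro q hq
        rw [Finset.mem_sdiff, hmem] at hq
        refine ⟨hq.1, ?_⟩
        by_contra hcon
        exact hq.2 ⟨hq.1, hcon⟩
      have hz : (0 : M) ∉ Q1 := by
        intro h0
        have := ((hmem 0).1 h0).2
        rw [add_zero] at this
        exact this hp1
      have key := ih (Q \ Q1).card (by omega) (P ∪ Q1.image (fun q => p1 + q)) (Q \ Q1)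
        (Finset.mem_union_left _ hP0) (Finset.mem_sdiff.2 ⟨hQ0, hz⟩) (by
          intro p hp q hq hpq
          obtain ⟨hqQ, hqP⟩ := hdiff q hq
          rcases Finset.mem_union.1 hp with hp | hp
          · exact h p hp q hqQ hpq
          · obtain ⟨r, hr, rfl⟩ := Finset.mem_image.1 hp
            exfalso
            have h1 : r = 0 := h (p1 + q) hqP r (hsub hr) (by rw [← hpq]; abel)
            exact hz (h1 ▸ hr)) rfl
      have hss : Finset.image₂ (fun x y => x + y) (P ∪ Q1.image (fun q => p1 + q)) (Q \ Q1) ⊆
          Finset.image₂ (fun x y => x + y) P Q := by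
        rw [Finset.image₂_subset_iff]
        intro p hp q hq
        obtain ⟨hqQ, hqP⟩ := hdiff q hq
        rcases Finset.mem_union.1 hp with hp | hp
        · exact Finset.mem_image₂.2 ⟨p, hp, q, hqQ, rfl⟩
        · obtain ⟨r, hr, rfl⟩ := Finset.mem_image.1 hp
          exact Finset.mem_image₂.2 ⟨p1 + q, hqP, r, hsub hr, by abel⟩
      have hle := Finset.card_le_card hss
      omega
    · push Not at hQ
      have hQe : Q = {0} := by
        ext x
        rw [Finset.mem_singleton]
        constructor
        · exact hQ x
        · rintro rfl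
          exact hQ0
      subst hQe
      rw [Finset.card_singleton] at hn
      subst hn
      rw [Finset.image₂_singleton_right]
      simp

end Pool.Agent.Helper58.AM
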